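import Pool.Agent.N856.QB.V1.Loc
import Pool.Agent.N856.QB.Stm

/-!
# Project QB: QB-U1
-/

set_option autoImplicit false
set_option linter.unusedSectionVars false
set_option linter.unusedVariables false

namespace Pool.Agent.N856.QB.V1

open NumberField IsDedekindDomain
open Pool.Agent.N856.QB (Hy Qf LoF Lo S_U1)

section

variable {K : Type} [Field K] [NumberField K] {w : HeightOneSpectrum (𝓞 K)}

lemma int_notMem {p : ℕ} (hp : p.Prime) (hw : ((p : ℕ) : 𝓞 K) ∈ w.asIdeal) {z : ℤ}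
    (hz : ¬ (p : ℤ) ∣ z) : ((z : ℤ) : 𝓞 K) ∉ w.asIdeal := by
  intro h
  have hcop : IsCoprime (p : ℤ) z := (Nat.prime_iff_prime_int.1 hp).coprime_iff_not_dvd.2 hz
  obtain ⟨s, t, hst⟩ := hcop
  apply w.isPrime.ne_top
  rw [Ideal.eq_top_iff_one]
  have h3 := congrArg (fun z : ℤ => (z : 𝓞 K)) hst
  push_cast at h3
  rw [← h3]
  exact w.asIdeal.add_mem (w.asIdeal.mul_mem_left _ hw) (w.asIdeal.mul_mem_left _ h)

lemma io_int (z : ℤ) : io w (z : 𝓞 K) = (z : w.adicCompletion K) := map_intCast _ _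

/-- the divisors of `n d` are units up to squares -/
lemma repr_unit {n d p : ℕ} (hp : p.Prime) (hd : Squarefree d) (hn : ¬ p ∣ n) {r : K}
    (hr : r ^ 2 = (d : K)) {a : ℤ} (ha : Squarefree a) (hdv : a ∣ n * d) :
    ∃ u : ℤ, ¬ (p : ℤ) ∣ u ∧ ∃ ρ : w.adicCompletion K, ρ ≠ 0 ∧
      (a : w.adicCompletion K) = (u : w.adicCompletion K) * ρ ^ 2 := by
  have hpz := Nat.prime_iff_prime_int.1 hp
  by_cases h : (p : ℤ) ∣ a
  · have h1 : (p : ℤ) ∣ n * d := h.trans hdv
    have h2 : p ∣ d := by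
      rcases hpz.dvd_or_dvd h1 with h3 | h3
      · exact absurd (Int.natCast_dvd_natCast.1 h3) hn
      · exact Int.natCast_dvd_natCast.1 h3
    obtain ⟨d', rfl⟩ := h2
    obtain ⟨a', rfl⟩ := h
    have hd' : ¬ p ∣ d' := by
      intro h3
      have := hd p (Nat.mul_dvd_mul_left p h3)
      exact hp.one_lt.ne' (Nat.isUnit_iff.1 this)
    have ha' : ¬ (p : ℤ) ∣ a' := by
      intro h3
      exact hpz.not_unit (ha p (mul_dvd_mul_left _ h3))
    have hd0 : d' ≠ 0 := by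
      rintro rfl
      exact hd' (dvd_zero p)
    have hdK : (d' : K) ≠ 0 := Nat.cast_ne_zero.2 hd0
    have hdL : (d' : w.adicCompletion K) ≠ 0 := by
      intro h0
      apply hdK
      apply (algebraMap K (w.adicCompletion K)).injective
      rw [map_natCast, map_zero]
      exact h0
    have hpL : (p : w.adicCompletion K) ≠ 0 := by
      intro h0
      have : (p : K) ≠ 0 := Nat.cast_ne_zero.2 hp.ne_zero
      apply this
      apply (algebraMap K (w.adicCompletion K)).injective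
      rw [map_natCast, map_zero]
      exact h0
    have hrL : (algebraMap K (w.adicCompletion K) r) ^ 2 = (p : w.adicCompletion K) * d' := by
      have e : ((p * d' : ℕ) : K) = (p : K) * (d' : K) := Nat.cast_mul _ _
      rw [← map_pow, hr, e, map_mul]
      congr 1
      · exact map_natCast (algebraMap K (w.adicCompletion K)) p
      · exact map_natCast (algebraMap K (w.adicCompletion K)) d'
    refine ⟨a' * d', ?_, algebraMap K (w.adicCompletion K) r / d', ?_, ?_⟩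
    · intro h3
      rcases hpz.dvd_or_dvd h3 with h4 | h4
      · exact ha' h4
      · exact hd' (Int.natCast_dvd_natCast.1 h4)
    · apply div_ne_zero _ hdL
      intro h0
      rw [h0, zero_pow two_ne_zero] at hrL
      exact mul_ne_zero hpL hdL hrL.symm
    · push_cast
      rw [div_pow, hrL]
      field_simp
  · exact ⟨a, h, 1, one_ne_zero, by rw [one_pow, mul_one]⟩

end

/-- **QB-U1** -/
theorem t_U1 : S_U1 := by
  intro n d hy K _ _ r hQ p hp hpn w hw a b ha hb had hbd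
  have hn : ¬ p ∣ n := fun h => hpn (h.mul_left 30)
  have h30 : ¬ p ∣ 30 := fun h => hpn (h.mul_right n)
  have hpz := Nat.prime_iff_prime_int.1 hp
  have h30z : ∀ z : ℤ, z ∣ 30 → ¬ (p : ℤ) ∣ z := by
    intro z hz h
    exact h30 (Int.natCast_dvd_natCast.1 (h.trans hz))
  have hnz : ¬ (p : ℤ) ∣ (n : ℤ) := fun h => hn (Int.natCast_dvd_natCast.1 h)
  have h2' : ¬ (p : ℤ) ∣ 2 := h30z 2 (by norm_num)
  have h3' : ¬ (p : ℤ) ∣ 3 := h30z 3 (by norm_num)
  have h5' : ¬ (p : ℤ) ∣ 5 := h30z 5 (by norm_num)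
  have h2 : (2 : 𝓞 K) ∉ w.asIdeal := by
    have := int_notMem hp hw h2'
    exact_mod_cast this
  obtain ⟨u, hu, ρ, hρ, e1⟩ := repr_unit (w := w) hp hy.hd.1 hn hQ.hr ha had
  obtain ⟨v, hv, σ, hσ, e2⟩ := repr_unit (w := w) hp hy.hd.1 hn hQ.hr hb hbd
  have hmul : ∀ {x y : ℤ}, ¬ (p : ℤ) ∣ x → ¬ (p : ℤ) ∣ y → ¬ (p : ℤ) ∣ x * y := by
    intro x y hx hy h
    rcases hpz.dvd_or_dvd h with h | h
    · exact hx h
    · exact hy h
  have d1 : ¬ (p : ℤ) ∣ (0 : ℤ) - (-9 * (-n : ℤ)) := by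
    have e : (0 : ℤ) - (-9 * (-n : ℤ)) = -((3 * 3) * n) := by ring
    rw [e, dvd_neg]
    exact hmul (hmul h3' h3') hnz
  have d2 : ¬ (p : ℤ) ∣ (0 : ℤ) - (16 * (-n : ℤ)) := by
    have e : (0 : ℤ) - (16 * (-n : ℤ)) = (((2 * 2) * (2 * 2)) * n) := by ring
    rw [e]
    exact hmul (hmul (hmul h2' h2') (hmul h2' h2')) hnz
  have d3 : ¬ (p : ℤ) ∣ (-9 * (-n : ℤ)) - (16 * (-n : ℤ)) := by
    have e : (-9 * (-n : ℤ)) - (16 * (-n : ℤ)) = ((5 * 5) * n) := by ring
    rw [e]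
    exact hmul (hmul h5' h5') hnz
  have m1 := int_notMem hp hw d1
  have m2 := int_notMem hp hw d2
  have m3 := int_notMem hp hw d3
  rw [Int.cast_sub] at m1 m2 m3
  obtain ⟨x, y, hy0, he, q1, q2⟩ := all_units h2 m1 m2 m3 (int_notMem hp hw hu)
    (int_notMem hp hw hv)
  rw [io_int, io_int] at q1 q2
  rw [io_int, io_int, io_int] at he
  refine ⟨x, y, hy0, he, ?_, ?_⟩
  · rw [e1, ← mul_assoc]
    exact isq_mul q1 ⟨ρ, sq ρ⟩
  · rw [e2, ← mul_assoc]
    exact isq_mul q2 ⟨σ, sq σ⟩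

end Pool.Agent.N856.QB.V1
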